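import Mathlib
import Pool.Agent.N909.TF.Siev

set_option autoImplicit false
set_option linter.unusedSectionVars false

/-!
# Pairs with a given difference in sieved sequential models: the count in short windows
-/

open MeasureTheory Filter Set
open scoped ENNReal Topology

namespace Pool.Agent.N654.TP

open Pool.Agent.R528.RM Pool.Agent.N909.TF

variable {Ω : Type} {m0 : MeasurableSpace Ω} {μ : Measure Ω} [IsProbabilityMeasure μ]
  {ℱ : Filtration ℕ m0} {A : ℕ → Set Ω}

/-- the number of residue classes `a` modulo `Q` such that `a` and `a + h` are coprime to `Q` -/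
def nu (Q h : ℕ) : ℕ :=
  ((Finset.range Q).filter (fun a => Nat.Coprime a Q ∧ Nat.Coprime (a + h) Q)).card

open Classical in
/-- the number of positions `k` with `t < k ≤ t + j`, `k` coprime to `Q` and `k - h` chosen -/
noncomputable def Nf (A : ℕ → Set Ω) (Q h t j : ℕ) (ω : Ω) : ℕ :=
  ((Finset.Ioc t (t + j)).filter (fun k => Nat.Coprime k Q ∧ ω ∈ A (k - h))).card

lemma per_card (p : ℕ → Prop) [DecidablePred p] (Q : ℕ) (hp : Function.Periodic p Q) (m j : ℕ) :
    ((Finset.Ico m (m + j * Q)).filter p).card = j * Q.count p := by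
  induction j with
  | zero => simp
  | succ j ih =>
    have e : Finset.Ico m (m + (j + 1) * Q) =
        Finset.Ico m (m + j * Q) ∪ Finset.Ico (m + j * Q) (m + j * Q + Q) := by
      rw [Finset.Ico_union_Ico_eq_Ico (by omega) (by omega)]
      congr 1
      ring
    rw [e, Finset.filter_union, Finset.card_union_of_disjoint
      (Finset.disjoint_filter_filter (Finset.Ico_disjoint_Ico_consecutive _ _ _)), ih,
      Nat.filter_Ico_card_eq_of_periodic _ _ _ hp]
    ring

lemma count_nu (Q h : ℕ) :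
    Q.count (fun a => Nat.Coprime a Q ∧ Nat.Coprime (a + h) Q) = nu Q h := by
  rw [Nat.count_eq_card_filter_range]
  rfl

lemma per_p (Q h : ℕ) :
    Function.Periodic (fun a => Nat.Coprime a Q ∧ Nat.Coprime (a + h) Q) Q := by
  intro a
  have e1 : Nat.Coprime (a + Q) Q ↔ Nat.Coprime a Q := by simp
  have e2 : Nat.Coprime (a + Q + h) Q ↔ Nat.Coprime (a + h) Q := by
    rw [show a + Q + h = a + h + Q by ring]
    simp
  simp only [eq_iff_iff]
  rw [e1, e2]

lemma win_card (Q h : ℕ) (hQ : 0 < Q) (n W : ℕ) (hn : h ≤ n) :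
    |((((Finset.Ioc n (n + W)).filter (fun k => Nat.Coprime k Q ∧ Nat.Coprime (k - h) Q)).card : ℕ) : ℝ) -
      (nu Q h : ℝ) / Q * W| ≤ nu Q h := by
  have e1 : ((Finset.Ioc n (n + W)).filter (fun k => Nat.Coprime k Q ∧ Nat.Coprime (k - h) Q)).card =
      ((Finset.Ico (n - h + 1) (n - h + 1 + W)).filter
        (fun a => Nat.Coprime a Q ∧ Nat.Coprime (a + h) Q)).card := by
    refine Finset.card_nbij' (fun k => k - h) (fun a => a + h) ?_ ?_ ?_ ?_
    · intro k hk
      simp only [Finset.coe_filter, Finset.mem_Ioc, mem_ofPred_eq] at hk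
      simp only [Finset.coe_filter, Finset.mem_Ico, mem_ofPred_eq]
      refine ⟨by omega, hk.2.2, ?_⟩
      rw [show k - h + h = k by omega]
      exact hk.2.1
    · intro a ha
      simp only [Finset.coe_filter, Finset.mem_Ico, mem_ofPred_eq] at ha
      simp only [Finset.coe_filter, Finset.mem_Ioc, mem_ofPred_eq]
      refine ⟨by omega, ha.2.2, ?_⟩
      rw [show a + h - h = a by omega]
      exact ha.2.1
    · intro k hk
      simp only [Finset.coe_filter, Finset.mem_Ioc, mem_ofPred_eq] at hk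
      show k - h + h = k
      omega
    · intro a _
      show a + h - h = a
      omega
  rw [e1]
  set m := n - h + 1
  have hlo : (W / Q) * nu Q h ≤ ((Finset.Ico m (m + W)).filter
      (fun a => Nat.Coprime a Q ∧ Nat.Coprime (a + h) Q)).card := by
    have h1 := per_card _ Q (per_p Q h) m (W / Q)
    rw [count_nu] at h1
    rw [← h1]
    apply Finset.card_le_card
    apply Finset.filter_subset_filter
    apply Finset.Ico_subset_Ico le_rfl
    have := Nat.div_mul_le_self W Q
    omega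
  have hup : ((Finset.Ico m (m + W)).filter
      (fun a => Nat.Coprime a Q ∧ Nat.Coprime (a + h) Q)).card ≤ (W / Q + 1) * nu Q h := by
    have h1 := per_card _ Q (per_p Q h) m (W / Q + 1)
    rw [count_nu] at h1
    rw [← h1]
    apply Finset.card_le_card
    apply Finset.filter_subset_filter
    apply Finset.Ico_subset_Ico le_rfl
    have := Nat.lt_div_mul_add (a := W) hQ
    have h2 : (W / Q + 1) * Q = W / Q * Q + Q := by ring
    omega
  have hQ0 : (0 : ℝ) < Q := by exact_mod_cast hQ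
  have q1 : ((W / Q : ℕ) : ℝ) ≤ (W : ℝ) / Q := Nat.cast_div_le
  have q2 : (W : ℝ) / Q ≤ ((W / Q : ℕ) : ℝ) + 1 := by
    rw [div_le_iff₀ hQ0]
    have h3 := (Nat.lt_div_mul_add (a := W) hQ).le
    have h4 : (W : ℝ) ≤ ((W / Q * Q + Q : ℕ) : ℝ) := by exact_mod_cast h3
    push_cast at h4
    linarith
  have hlo' : ((W / Q : ℕ) : ℝ) * nu Q h ≤ ((((Finset.Ico m (m + W)).filter
      (fun a => Nat.Coprime a Q ∧ Nat.Coprime (a + h) Q)).card : ℕ) : ℝ) := by exact_mod_cast hlo
  have hup' : ((((Finset.Ico m (m + W)).filter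
      (fun a => Nat.Coprime a Q ∧ Nat.Coprime (a + h) Q)).card : ℕ) : ℝ) ≤
      (((W / Q : ℕ) : ℝ) + 1) * nu Q h := by exact_mod_cast hup
  have hν : (0 : ℝ) ≤ nu Q h := Nat.cast_nonneg _
  have e2 : (nu Q h : ℝ) / Q * W = (W : ℝ) / Q * nu Q h := by ring
  rw [e2, abs_le]
  have r1 := mul_le_mul_of_nonneg_right q1 hν
  have r2 := mul_le_mul_of_nonneg_right q2 hν
  constructor <;> nlinarith

/-- **the number of forbidden positions in short windows** -/
theorem count (hA : ∀ n, MeasurableSet[ℱ n] (A n)) (Q : ℕ) (hQ : 0 < Q)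
    (hcop : ∀ n, ¬ Nat.Coprime n Q → A n = ∅)
    (hd : ∀ᵐ ω ∂μ, Tendsto (fun n : ℕ => dens μ ℱ A n ω * Real.log n)
      (atTop ⊓ 𝓟 {n : ℕ | Nat.Coprime (n + 1) Q}) (𝓝 ((Q : ℝ) / Nat.totient Q)))
    (h : ℕ) (hν : 0 < nu Q h) (W : ℕ → ℕ)
    (hW1 : Tendsto (fun n : ℕ => (W n : ℝ) / Real.log n ^ 2) atTop atTop)
    (hW2 : ∀ᶠ n : ℕ in atTop, W n ≤ n) :
    ∀ᵐ ω ∂μ, ∀ δ : ℝ, 0 < δ → ∀ᶠ n : ℕ in atTop,
      |(Nf A Q h n (W n) ω : ℝ) - (nu Q h : ℝ) / Q * ((Q : ℝ) / Nat.totient Q) * (W n / Real.log n)| ≤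
        δ * ((nu Q h : ℝ) / Q * ((Q : ℝ) / Nat.totient Q) * (W n / Real.log n)) := by
  classical
  have hc := cQ_ge Q hQ
  set c : ℝ := (Q : ℝ) / Nat.totient Q with hcdef
  have hc0 : 0 < c := by linarith
  have hQ0 : (0 : ℝ) < Q := by exact_mod_cast hQ
  have hν0 : (0 : ℝ) < nu Q h := by exact_mod_cast hν
  set κ : ℝ := (nu Q h : ℝ) / Q with hκ
  have hκ0 : 0 < κ := by positivity
  set J : ℕ → Finset ℕ := fun n => (Finset.Ioc n (n + W n)).filter (fun k => h < k ∧ Nat.Coprime k Q) with hJ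
  set T : ℕ → ℕ → Finset ℕ := fun _ k => {k - h} with hT
  have hlog : Tendsto (fun n : ℕ => Real.log n) atTop atTop :=
    Real.tendsto_log_atTop.comp tendsto_natCast_atTop_atTop
  -- the window lengths tend to infinity
  have hWt : Tendsto (fun n : ℕ => (W n : ℝ)) atTop atTop := by
    refine tendsto_atTop_mono' atTop ?_ hW1
    filter_upwards [hlog.eventually_ge_atTop 1] with n hn
    apply div_le_self (Nat.cast_nonneg _)
    exact one_le_pow₀ hn
  have hcopc : ∀ᶠ n : ℕ in atTop, (((cop (J n) (T n) Q).card : ℕ) : ℝ) =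
      ((((Finset.Ioc n (n + W n)).filter (fun k => Nat.Coprime k Q ∧ Nat.Coprime (k - h) Q)).card : ℕ) : ℝ) := by
    filter_upwards [eventually_ge_atTop h] with n hn
    congr 2
    unfold cop
    ext k
    simp only [hJ, hT, Finset.mem_filter, Finset.mem_Ioc, Finset.mem_singleton, forall_eq]
    constructor
    · rintro ⟨⟨h1, h2, h3⟩, h4⟩
      exact ⟨h1, h3, h4⟩
    · rintro ⟨h1, h3, h4⟩
      exact ⟨⟨h1, by omega, h3⟩, h4⟩
  have hcard : ∀ δ : ℝ, 0 < δ → ∀ᶠ n : ℕ in atTop,
      |(((cop (J n) (T n) Q).card : ℕ) : ℝ) - κ * W n| ≤ δ * (κ * W n) := by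
    intro δ hδ
    filter_upwards [hcopc, eventually_ge_atTop h, hWt.eventually_ge_atTop ((nu Q h : ℝ) / (δ * κ))] with n h1 h2 h3
    rw [h1]
    refine (win_card Q h hQ n (W n) h2).trans ?_
    rw [div_le_iff₀ (by positivity)] at h3
    linarith
  have main := sieved (μ := μ) hA Q hQ hcop hd 1 J T (fun _ => 1)
    (fun n j _ => Finset.card_singleton _)
    (fun n j hj => by
      simp only [hJ, Finset.mem_filter] at hj
      simp only [hT, Finset.mem_singleton]
      omega)
    (fun n t => by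
      refine Finset.card_le_one.2 fun a ha b hb => ?_
      simp only [hJ, hT, Finset.mem_filter, Finset.mem_singleton] at ha hb
      omega)
    atTop le_rfl (fun n => Real.log n) hlog ?_ ?_
  · filter_upwards [main] with ω hω δ hδ
    set η : ℝ := min (δ / 3) 1 with hη
    have hη0 : 0 < η := by rw [hη]; positivity
    have hη1 : η ≤ 1 := min_le_right _ _
    have hηδ : 3 * η ≤ δ := by
      have : η ≤ δ / 3 := min_le_left _ _
      linarith
    filter_upwards [hω η hη0, hcard η hη0, eventually_ge_atTop h, hlog.eventually_ge_atTop 1] with n g1 g2 g3 g4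
    have e1 : (cho A (J n) (T n) ω).card = Nf A Q h n (W n) ω := by
      unfold cho Nf
      congr 1
      ext k
      simp only [hJ, hT, Finset.mem_filter, Finset.mem_Ioc, Finset.mem_singleton, forall_eq]
      constructor
      · rintro ⟨⟨h1, h2, h3⟩, h4⟩
        exact ⟨h1, h3, h4⟩
      · rintro ⟨h1, h3, h4⟩
        exact ⟨⟨h1, by omega, h3⟩, h4⟩
    rw [e1, pow_one] at g1
    obtain ⟨N, hN⟩ : ∃ N : ℝ, N = (((cop (J n) (T n) Q).card : ℕ) : ℝ) := ⟨_, rfl⟩
    rw [← hN] at g1 g2
    obtain ⟨R, hR⟩ : ∃ R : ℝ, R = (Nf A Q h n (W n) ω : ℝ) := ⟨_, rfl⟩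
    rw [← hR] at g1 ⊢
    have hL0 : 0 < Real.log n := by linarith
    obtain ⟨q, hq⟩ : ∃ q : ℝ, q = c / Real.log n := ⟨_, rfl⟩
    have hq0 : 0 < q := by rw [hq]; positivity
    rw [← hq] at g1
    have e2 : κ * c * (W n / Real.log n) = (κ * W n) * q := by
      rw [hq]; ring
    rw [e2]
    obtain ⟨X, hX⟩ : ∃ X : ℝ, X = κ * W n := ⟨_, rfl⟩
    rw [← hX] at g2 ⊢
    have hX0 : 0 ≤ X := by rw [hX]; positivity
    have k1 := abs_le.1 g1
    have k2 := abs_le.1 g2
    have b1 : N * q ≤ (1 + η) * X * q := mul_le_mul_of_nonneg_right (by linarith) hq0.le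
    have b2 : (1 - η) * X * q ≤ N * q := mul_le_mul_of_nonneg_right (by linarith) hq0.le
    have hXq : 0 ≤ X * q := by positivity
    have b3 : η * (N * q) ≤ η * ((1 + η) * X * q) := mul_le_mul_of_nonneg_left b1 hη0.le
    have b4 : η * (η * (X * q)) ≤ 1 * (η * (X * q)) :=
      mul_le_mul_of_nonneg_right hη1 (by positivity)
    have b5 : 3 * η * (X * q) ≤ δ * (X * q) := mul_le_mul_of_nonneg_right hηδ hXq
    rw [abs_le]
    constructor <;> nlinarith
  · intro δ hδ
    have hnear : ∀ᶠ n : ℕ in atTop, Real.log 2 ≤ δ * Real.log n :=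
      (hlog.const_mul_atTop hδ).eventually_ge_atTop _
    filter_upwards [hnear, hW2, eventually_ge_atTop (2 * h + 2)] with n g1 g2 g3
    have e : far (cop (J n) (T n) Q) (T n) (Real.log n) δ = ∅ := by
      rw [Finset.eq_empty_iff_forall_notMem]
      intro k hk
      unfold far cop at hk
      simp only [hJ, hT, Finset.mem_filter, Finset.mem_Ioc, Finset.mem_singleton, exists_eq_left,
        forall_eq] at hk
      obtain ⟨⟨⟨h1, h2, h3⟩, h4⟩, h5⟩ := hk
      have hn0 : (0 : ℝ) < n := by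
        have : 0 < n := by omega
        exact_mod_cast this
      have hk0 : (0 : ℝ) < ((k - h : ℕ) : ℝ) := by
        have : 0 < k - h := by omega
        exact_mod_cast this
      have l1 : Real.log ((k - h : ℕ) : ℝ) ≤ Real.log n + Real.log 2 := by
        rw [← Real.log_mul hn0.ne' (by norm_num)]
        apply Real.log_le_log hk0
        have : k - h ≤ n * 2 := by omega
        exact_mod_cast this
      have l2 : Real.log n ≤ Real.log ((k - h : ℕ) : ℝ) + Real.log 2 := by
        rw [← Real.log_mul hk0.ne' (by norm_num)]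
        apply Real.log_le_log hn0
        have : n ≤ (k - h) * 2 := by omega
        exact_mod_cast this
      rw [lt_abs] at h5
      rcases h5 with h5 | h5 <;> linarith
    rw [e]
    simp only [Finset.card_empty, Nat.cast_zero, zero_mul]
    positivity
  · have h2 : ∀ᶠ n : ℕ in atTop, κ / 2 * ((W n : ℝ) / Real.log n ^ 2) ≤
        (((cop (J n) (T n) Q).card : ℕ) : ℝ) / (((1 : ℕ) : ℝ) * Real.log n * Real.log n ^ 1) := by
      filter_upwards [hcard (1 / 2) (by norm_num), hlog.eventually_ge_atTop 1] with n g1 g2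
      have hL0 : 0 < Real.log n := by linarith
      rw [pow_one, Nat.cast_one, one_mul, ← pow_two, mul_div_assoc']
      apply div_le_div_of_nonneg_right _ (by positivity)
      have := (abs_le.1 g1).1
      linarith
    exact tendsto_atTop_mono' atTop h2 (hW1.const_mul_atTop (by positivity))

end Pool.Agent.N654.TP
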