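import Mathlib
import Pool.Agent.N740.HK.Pat
import Pool.Agent.N654.TP.Cnt

set_option autoImplicit false
set_option linter.unusedSectionVars false

/-!
# Pairs with a given difference in sieved sequential models: windows without pairs
-/

open MeasureTheory Filter Set
open scoped ENNReal Topology

namespace Pool.Agent.N654.TP

open Pool.Agent.R528.RM Pool.Agent.N909.TF Pool.Agent.N740.HK

variable {Ω : Type} {m0 : MeasurableSpace Ω} {μ : Measure Ω} [IsProbabilityMeasure μ]
  {ℱ : Filtration ℕ m0} {A : ℕ → Set Ω}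

/-- no pair `(k - h, k)` is chosen with `t < k ≤ t + j` -/
def NP (A : ℕ → Set Ω) (h t j : ℕ) : Set Ω :=
  {ω | ∀ k, t < k → k ≤ t + j → ω ∈ A (k - h) → ω ∉ A k}

/-- `t + 1` is a forbidden position -/
def Fo (A : ℕ → Set Ω) (Q h t : ℕ) : Set Ω :=
  {ω | Nat.Coprime (t + 1) Q ∧ ω ∈ A (t + 1 - h)}

lemma Fo_meas (hA : ∀ n, MeasurableSet[ℱ n] (A n)) (Q : ℕ) {h : ℕ} (hh : 1 ≤ h) (t : ℕ) :
    MeasurableSet[ℱ t] (Fo A Q h t) := by
  by_cases hc : Nat.Coprime (t + 1) Q
  · have e : Fo A Q h t = A (t + 1 - h) := by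
      ext ω
      exact ⟨fun h1 => h1.2, fun h1 => ⟨hc, h1⟩⟩
    rw [e]
    exact ℱ.mono (by omega) _ (hA _)
  · have e : Fo A Q h t = ∅ := by
      ext ω
      simp only [Fo, mem_ofPred_eq, hc, false_and, mem_empty_iff_false]
    rw [e]
    exact @MeasurableSet.empty _ (ℱ t)

lemma Ioc_succ_left (t j : ℕ) : Finset.Ioc t (t + (j + 1)) = insert (t + 1) (Finset.Ioc (t + 1) (t + 1 + j)) := by
  ext k
  rw [Finset.mem_insert, Finset.mem_Ioc, Finset.mem_Ioc]
  omega

lemma Nf_succ (Q h t j : ℕ) (ω : Ω) (hω : ω ∈ Fo A Q h t) :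
    Nf A Q h t (j + 1) ω = Nf A Q h (t + 1) j ω + 1 := by
  classical
  unfold Nf
  rw [Ioc_succ_left, Finset.filter_insert, if_pos ⟨hω.1, hω.2⟩, Finset.card_insert_of_notMem]
  intro h1
  have := (Finset.mem_Ioc.1 (Finset.mem_of_mem_filter _ h1)).1
  omega

lemma Nf_succ' (Q h t j : ℕ) (ω : Ω) (hω : ω ∉ Fo A Q h t) :
    Nf A Q h t (j + 1) ω = Nf A Q h (t + 1) j ω := by
  classical
  unfold Nf
  rw [Ioc_succ_left, Finset.filter_insert, if_neg (fun h1 => hω ⟨h1.1, h1.2⟩)]

/-- the event of a block -/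
def EV (A V : ℕ → Set Ω) (Q h r t j : ℕ) : Set Ω :=
  (NP A h t j ∪ WV V t j) ∪ {ω | r < Nf A Q h t j ω}

theorem np_ge (hA : ∀ n, MeasurableSet[ℱ n] (A n)) (Q : ℕ)
    (hcop : ∀ n, ¬ Nat.Coprime n Q → A n = ∅) {h : ℕ} (hh : 1 ≤ h) {V : ℕ → Set Ω}
    (hV : ∀ n, MeasurableSet[ℱ n] (V n)) {u : ℝ} (hu0 : 0 ≤ u) (hu1 : u ≤ 1) (j : ℕ) :
    ∀ (r t : ℕ), (∀ n, t ≤ n → n < t + j → Nat.Coprime (n + 1) Q → ∀ ω, ω ∉ V n → dens μ ℱ A n ω ≤ u) →
      ∀ B, MeasurableSet[ℱ t] B → (1 - u) ^ r * μ.real B ≤ μ.real (B ∩ EV A V Q h r t j) := by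
  induction j with
  | zero =>
    intro r t _ B hB
    have e : B ∩ EV A V Q h r t 0 = B := by
      have : NP A h t 0 = univ := by
        ext ω
        simp only [NP, mem_ofPred_eq, mem_univ, iff_true]
        intro k h1 h2
        omega
      unfold EV
      rw [this, univ_union, univ_union, inter_univ]
    rw [e]
    exact mul_le_of_le_one_left measureReal_nonneg (pow_le_one₀ (by linarith) (by linarith))
  | succ j ih =>
    intro r t hbd B hB
    have hV0 : MeasurableSet (V t) := ℱ.le _ _ (hV t)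
    have hA0 : MeasurableSet (A (t + 1)) := ℱ.le _ _ (hA _)
    have hFm := Fo_meas (ℱ := ℱ) hA Q hh t
    have hF0 : MeasurableSet (Fo A Q h t) := ℱ.le _ _ hFm
    have hBV : MeasurableSet[ℱ t] (B \ V t) := @MeasurableSet.diff _ (ℱ t) _ _ hB (hV t)
    have hBVF : MeasurableSet[ℱ t] ((B \ V t) ∩ Fo A Q h t) := @MeasurableSet.inter _ (ℱ t) _ _ hBV hFm
    have hBVF' : MeasurableSet[ℱ t] ((B \ V t) \ Fo A Q h t) := @MeasurableSet.diff _ (ℱ t) _ _ hBV hFm
    have hbd' : ∀ n, t + 1 ≤ n → n < t + 1 + j → Nat.Coprime (n + 1) Q → ∀ ω, ω ∉ V n → dens μ ℱ A n ω ≤ u :=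
      fun n h1 h2 => hbd n (by omega) (by omega)
    set X : Set Ω := B ∩ EV A V Q h r t (j + 1) with hX
    have hXV : μ.real X = μ.real (X ∩ V t) + μ.real (X \ V t) :=
      (measureReal_inter_add_sdiff (μ := μ) (s := X) hV0).symm
    have hXF : μ.real (X \ V t) = μ.real ((X \ V t) ∩ Fo A Q h t) + μ.real ((X \ V t) \ Fo A Q h t) :=
      (measureReal_inter_add_sdiff (μ := μ) (s := X \ V t) hF0).symm
    have e1 : X ∩ V t = B ∩ V t := by
      ext ω
      simp only [hX, EV, WV_succ, mem_inter_iff, mem_union]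
      tauto
    have hBVs : μ.real B = μ.real (B ∩ V t) + μ.real (B \ V t) :=
      (measureReal_inter_add_sdiff (μ := μ) (s := B) hV0).symm
    have hBFs : μ.real (B \ V t) = μ.real ((B \ V t) ∩ Fo A Q h t) + μ.real ((B \ V t) \ Fo A Q h t) :=
      (measureReal_inter_add_sdiff (μ := μ) (s := B \ V t) hF0).symm
    have w0 : ∀ r : ℕ, 0 ≤ (1 - u) ^ r := fun r => pow_nonneg (by linarith) _
    have w1 : (1 - u) ^ r ≤ 1 := pow_le_one₀ (by linarith) (by linarith)
    have hfirst : (1 - u) ^ r * μ.real (B ∩ V t) ≤ μ.real (B ∩ V t) :=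
      mul_le_of_le_one_left measureReal_nonneg w1
    have hsecond : (1 - u) ^ r * μ.real ((B \ V t) ∩ Fo A Q h t) ≤ μ.real ((X \ V t) ∩ Fo A Q h t) := by
      cases r with
      | zero =>
        rw [pow_zero, one_mul]
        refine measureReal_mono ?_ (measure_ne_top _ _)
        rintro ω ⟨⟨g1, g2⟩, g3⟩
        refine ⟨⟨⟨g1, Or.inr ?_⟩, g2⟩, g3⟩
        show 0 < Nf A Q h t (j + 1) ω
        rw [Nf_succ Q h t j ω g3]
        omega
      | succ r =>
        by_cases hc : Nat.Coprime (t + 1) Q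
        · have hupp := upper_meas (μ := μ) hA t hBVF (u := u)
            (fun ω hω => hbd t le_rfl (by omega) hc ω hω.1.2)
          have hsplit := measureReal_inter_add_sdiff (μ := μ) (s := (B \ V t) ∩ Fo A Q h t) hA0
          have hC : MeasurableSet[ℱ (t + 1)] (((B \ V t) ∩ Fo A Q h t) \ A (t + 1)) :=
            @MeasurableSet.diff _ (ℱ (t + 1)) _ _ (ℱ.mono (Nat.le_succ t) _ hBVF) (hA (t + 1))
          have h1 := ih r (t + 1) hbd' _ hC
          have h2 : (1 - u) * μ.real ((B \ V t) ∩ Fo A Q h t) ≤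
              μ.real (((B \ V t) ∩ Fo A Q h t) \ A (t + 1)) := by linarith
          have h3 : (((B \ V t) ∩ Fo A Q h t) \ A (t + 1)) ∩ EV A V Q h r (t + 1) j ⊆
              (X \ V t) ∩ Fo A Q h t := by
            rintro ω ⟨⟨⟨⟨g1, g2⟩, g3⟩, g4⟩, g5⟩
            refine ⟨⟨⟨g1, ?_⟩, g2⟩, g3⟩
            rcases g5 with (g5 | g5) | g5
            · left
              left
              intro k hk1 hk2 hk3
              by_cases hkt : k = t + 1
              · rw [hkt]
                exact g4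
              · exact g5 k (by omega) (by omega) hk3
            · left
              right
              rw [WV_succ]
              exact Or.inr g5
            · right
              show r + 1 < Nf A Q h t (j + 1) ω
              rw [Nf_succ Q h t j ω g3]
              have : r < Nf A Q h (t + 1) j ω := g5
              omega
          calc (1 - u) ^ (r + 1) * μ.real ((B \ V t) ∩ Fo A Q h t) =
                (1 - u) ^ r * ((1 - u) * μ.real ((B \ V t) ∩ Fo A Q h t)) := by
                  rw [pow_succ]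
                  ring
            _ ≤ (1 - u) ^ r * μ.real (((B \ V t) ∩ Fo A Q h t) \ A (t + 1)) :=
                mul_le_mul_of_nonneg_left h2 (w0 r)
            _ ≤ _ := h1
            _ ≤ _ := measureReal_mono h3 (measure_ne_top _ _)
        · have e : (B \ V t) ∩ Fo A Q h t = ∅ := by
            ext ω
            simp only [Fo, mem_inter_iff, mem_ofPred_eq, hc, false_and, and_false, mem_empty_iff_false]
          rw [e, measureReal_empty, mul_zero]
          exact measureReal_nonneg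
    have hthird : (1 - u) ^ r * μ.real ((B \ V t) \ Fo A Q h t) ≤ μ.real ((X \ V t) \ Fo A Q h t) := by
      have h1 := ih r (t + 1) hbd' _ (ℱ.mono (Nat.le_succ t) _ hBVF')
      refine h1.trans (measureReal_mono ?_ (measure_ne_top _ _))
      rintro ω ⟨⟨⟨g1, g2⟩, g3⟩, g5⟩
      refine ⟨⟨⟨g1, ?_⟩, g2⟩, g3⟩
      rcases g5 with (g5 | g5) | g5
      · left
        left
        intro k hk1 hk2 hk3
        by_cases hkt : k = t + 1
        · rw [hkt]
          rw [hkt] at hk3
          by_cases hc : Nat.Coprime (t + 1) Q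
          · exact absurd ⟨hc, hk3⟩ g3
          · rw [hcop _ hc]
            exact notMem_empty ω
        · exact g5 k (by omega) (by omega) hk3
      · left
        right
        rw [WV_succ]
        exact Or.inr g5
      · right
        show r < Nf A Q h t (j + 1) ω
        rw [Nf_succ' Q h t j ω g3]
        exact g5
    rw [hXV, e1, hBVs, hXF, hBFs, mul_add, mul_add]
    exact add_le_add hfirst (add_le_add hsecond hthird)

lemma NP_meas (hA : ∀ n, MeasurableSet[ℱ n] (A n)) (h t j : ℕ) : MeasurableSet[ℱ (t + j)] (NP A h t j) := by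
  have e : NP A h t j = ⋂ k ∈ Finset.Ioc t (t + j), (A (k - h) ∩ A k)ᶜ := by
    ext ω
    simp only [NP, mem_ofPred_eq, mem_iInter, Finset.mem_Ioc, mem_compl_iff, mem_inter_iff]
    constructor
    · rintro h1 k ⟨h2, h3⟩ ⟨h4, h5⟩
      exact h1 k h2 h3 h4 h5
    · intro h1 k h2 h3 h4 h5
      exact h1 k ⟨h2, h3⟩ ⟨h4, h5⟩
  rw [e]
  refine Finset.measurableSet_biInter _ fun k hk => ?_
  have hk' := Finset.mem_Ioc.1 hk
  exact @MeasurableSet.compl _ _ (ℱ (t + j)) (@MeasurableSet.inter _ (ℱ (t + j)) _ _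
    (ℱ.mono (by omega) _ (hA (k - h))) (ℱ.mono (by omega) _ (hA k)))

lemma Nf_meas (hA : ∀ n, MeasurableSet[ℱ n] (A n)) (Q : ℕ) {h : ℕ} (hh : 1 ≤ h) (j : ℕ) :
    ∀ r t : ℕ, MeasurableSet[ℱ (t + j)] {ω | r < Nf A Q h t j ω} := by
  induction j with
  | zero =>
    intro r t
    have e : {ω | r < Nf A Q h t 0 ω} = ∅ := by
      ext ω
      simp [Nf]
    rw [e]
    exact @MeasurableSet.empty _ (ℱ (t + 0))
  | succ j ih =>
    intro r t
    have hF : MeasurableSet[ℱ (t + (j + 1))] (Fo A Q h t) := ℱ.mono (by omega) _ (Fo_meas hA Q hh t)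
    have e0 : t + 1 + j = t + (j + 1) := by ring
    have h1 : MeasurableSet[ℱ (t + (j + 1))] {ω | r < Nf A Q h (t + 1) j ω} := by
      rw [← e0]; exact ih r (t + 1)
    have h2 : MeasurableSet[ℱ (t + (j + 1))] {ω | r < Nf A Q h (t + 1) j ω + 1} := by
      cases r with
      | zero =>
        have e : {ω | 0 < Nf A Q h (t + 1) j ω + 1} = univ := by
          ext ω
          simp
        rw [e]
        exact @MeasurableSet.univ _ (ℱ (t + (j + 1)))
      | succ r =>
        have e : {ω | r + 1 < Nf A Q h (t + 1) j ω + 1} = {ω | r < Nf A Q h (t + 1) j ω} := by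
          ext ω
          simp only [mem_ofPred_eq]
          omega
        rw [e, ← e0]
        exact ih r (t + 1)
    have e : {ω | r < Nf A Q h t (j + 1) ω} =
        (Fo A Q h t ∩ {ω | r < Nf A Q h (t + 1) j ω + 1}) ∪ ((Fo A Q h t)ᶜ ∩ {ω | r < Nf A Q h (t + 1) j ω}) := by
      ext ω
      simp only [mem_ofPred_eq, mem_union, mem_inter_iff, mem_compl_iff]
      by_cases hω : ω ∈ Fo A Q h t
      · rw [Nf_succ Q h t j ω hω]
        simp [hω]
      · rw [Nf_succ' Q h t j ω hω]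
        simp [hω]
    rw [e]
    exact @MeasurableSet.union _ (ℱ (t + (j + 1))) _ _
      (@MeasurableSet.inter _ (ℱ (t + (j + 1))) _ _ hF h2)
      (@MeasurableSet.inter _ (ℱ (t + (j + 1))) _ _ (@MeasurableSet.compl _ _ (ℱ (t + (j + 1))) hF) h1)

lemma EV_meas (hA : ∀ n, MeasurableSet[ℱ n] (A n)) {V : ℕ → Set Ω}
    (hV : ∀ n, MeasurableSet[ℱ n] (V n)) (Q : ℕ) {h : ℕ} (hh : 1 ≤ h) (r t j : ℕ) :
    MeasurableSet[ℱ (t + j)] (EV A V Q h r t j) :=
  @MeasurableSet.union _ (ℱ (t + j)) _ _ (@MeasurableSet.union _ (ℱ (t + j)) _ _ (NP_meas hA h t j)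
    (WV_meas hV t j)) (Nf_meas hA Q hh j r t)

end Pool.Agent.N654.TP
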