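import Mathlib
import Pool.Agent.N909.TF.Free
import Pool.Agent.N654.TP.Cnt

set_option autoImplicit false
set_option linter.unusedSectionVars false

/-!
# Pairs with a given difference in sieved sequential models: the upper bound for the gaps
-/

open MeasureTheory Filter Set
open scoped ENNReal Topology

namespace Pool.Agent.N654.TP

open Pool.Agent.R528.RM Pool.Agent.N909.TF

/-- the length of the window -/
noncomputable def Wc (c : ℝ) (n : ℕ) : ℕ := ⌊c * Real.log n ^ 3⌋₊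

/-- the constant -/
noncomputable def al (Q h : ℕ) : ℝ := (nu Q h : ℝ) / Q * ((Q : ℝ) / Nat.totient Q) ^ 2

/-! ### Analysis -/

lemma tendsto_log : Tendsto (fun n : ℕ => Real.log (n : ℝ)) atTop atTop :=
  Real.tendsto_log_atTop.comp tendsto_natCast_atTop_atTop

lemma al_pos (Q h : ℕ) (hQ : 0 < Q) (hν : 0 < nu Q h) : 0 < al Q h := by
  have h1 : (0 : ℝ) < Q := by exact_mod_cast hQ
  have h2 : (0 : ℝ) < nu Q h := by exact_mod_cast hν
  have h3 : (0 : ℝ) < Nat.totient Q := by exact_mod_cast Nat.totient_pos.2 hQ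
  unfold al
  positivity

lemma Wc_ge {c η : ℝ} (hc : 0 < c) (hη : 0 < η) : ∀ᶠ n : ℕ in atTop,
    (1 - η) * (c * Real.log n ^ 3) ≤ (Wc c n : ℝ) := by
  have h1 : Tendsto (fun n : ℕ => η * (c * Real.log n ^ 3)) atTop atTop :=
    ((((tendsto_pow_atTop (by norm_num)).comp tendsto_log).const_mul_atTop hc)).const_mul_atTop hη
  filter_upwards [h1.eventually_ge_atTop 1] with n hn
  have h2 : c * Real.log n ^ 3 - 1 < (Wc c n : ℝ) := Nat.sub_one_lt_floor _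
  linarith

lemma Wc_div {c : ℝ} (hc : 0 < c) :
    Tendsto (fun n : ℕ => (Wc c n : ℝ) / Real.log n ^ 2) atTop atTop := by
  have h1 : Tendsto (fun n : ℕ => c / 2 * Real.log n) atTop atTop :=
    tendsto_log.const_mul_atTop (by positivity)
  refine tendsto_atTop_mono' atTop ?_ h1
  filter_upwards [Wc_ge hc (show (0 : ℝ) < 1 / 2 by norm_num), tendsto_log.eventually_gt_atTop 0] with n g1 g2
  rw [le_div_iff₀ (by positivity)]
  calc c / 2 * Real.log n * Real.log n ^ 2 = (1 - 1 / 2) * (c * Real.log n ^ 3) := by ring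
    _ ≤ _ := g1

lemma log3_le (C : ℝ) (hC : 0 < C) : ∀ᶠ n : ℕ in atTop, C * Real.log n ^ 3 ≤ n := by
  have h3 := (Real.isLittleO_pow_log_id_atTop (n := 3)).def (show (0 : ℝ) < 1 / C by positivity)
  have h4 := tendsto_natCast_atTop_atTop (R := ℝ)
  filter_upwards [h4.eventually h3, tendsto_log.eventually_gt_atTop 0] with n g1 g2
  rw [id, Real.norm_of_nonneg (by positivity), Real.norm_of_nonneg (by positivity)] at g1
  calc C * Real.log n ^ 3 ≤ C * (1 / C * n) := mul_le_mul_of_nonneg_left g1 hC.le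
    _ = n := by field_simp

lemma Wc_le {c : ℝ} (hc : 0 < c) : ∀ᶠ n : ℕ in atTop, Wc c n ≤ n := by
  filter_upwards [log3_le c hc] with n hn
  unfold Wc
  exact Nat.floor_le_of_le hn

lemma log_win (δ : ℝ) (hδ : 0 < δ) : ∀ᶠ n : ℕ in atTop, ∀ k : ℕ, k ≤ 2 * n → 0 < k →
    Real.log k ≤ (1 + δ) * Real.log n := by
  filter_upwards [(tendsto_log.const_mul_atTop hδ).eventually_ge_atTop (Real.log 2),
    eventually_gt_atTop 0] with n g1 g2 k hk hk0
  have hn : (0 : ℝ) < n := by exact_mod_cast g2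
  have hk1 : (0 : ℝ) < k := by exact_mod_cast hk0
  have h1 : Real.log k ≤ Real.log (2 * n) := Real.log_le_log hk1 (by exact_mod_cast hk)
  rw [Real.log_mul (by norm_num) hn.ne'] at h1
  linarith

lemma cmp3 {b c K : ℝ} (hc : 0 < c) (hbc : b < c) : ∀ᶠ L : ℝ in atTop,
    K + b * (L + Real.log 2) ^ 3 ≤ c * L ^ 3 := by
  obtain ⟨b', hb'⟩ : ∃ b', b' = max b 0 := ⟨_, rfl⟩
  have hb0 : 0 ≤ b' := by rw [hb']; exact le_max_right _ _
  have hbb : b ≤ b' := by rw [hb']; exact le_max_left _ _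
  have hbc' : b' < c := by rw [hb']; exact max_lt hbc hc
  obtain ⟨θ, hθ, hθc⟩ : ∃ θ : ℝ, 0 < θ ∧ b' * (1 + θ) ^ 3 < c := by
    have h1 : ContinuousAt (fun θ : ℝ => b' * (1 + θ) ^ 3) 0 := by fun_prop
    have h2 : b' * (1 + 0 : ℝ) ^ 3 < c := by norm_num; exact hbc'
    obtain ⟨r, hr, hr'⟩ := Metric.eventually_nhds_iff.1 (h1.eventually (gt_mem_nhds h2))
    refine ⟨r / 2, by positivity, ?_⟩
    exact @hr' (r / 2) (by
      rw [Real.dist_eq, sub_zero, abs_of_pos (by positivity)]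
      linarith)
  have hl2 : 0 < Real.log 2 := Real.log_pos (by norm_num)
  have h3 : Tendsto (fun L : ℝ => (c - b' * (1 + θ) ^ 3) * L ^ 3) atTop atTop :=
    (tendsto_pow_atTop (by norm_num)).const_mul_atTop (by linarith)
  filter_upwards [(tendsto_id.const_mul_atTop hθ).eventually_ge_atTop (Real.log 2),
    h3.eventually_ge_atTop K, eventually_gt_atTop 0] with L g1 g2 g3
  have g1' : Real.log 2 ≤ θ * L := g1
  have e1 : (L + Real.log 2) ^ 3 ≤ ((1 + θ) * L) ^ 3 :=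
    pow_le_pow_left₀ (by linarith) (by linarith) 3
  have e2 : b * (L + Real.log 2) ^ 3 ≤ b' * (L + Real.log 2) ^ 3 :=
    mul_le_mul_of_nonneg_right hbb (by positivity)
  have e3 : b' * (L + Real.log 2) ^ 3 ≤ b' * ((1 + θ) * L) ^ 3 := mul_le_mul_of_nonneg_left e1 hb0
  have e4 : b' * ((1 + θ) * L) ^ 3 = b' * (1 + θ) ^ 3 * L ^ 3 := by ring
  have e5 : (c - b' * (1 + θ) ^ 3) * L ^ 3 = c * L ^ 3 - b' * (1 + θ) ^ 3 * L ^ 3 := by ring
  rw [e5] at g2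
  linarith

variable {Ω : Type} {m0 : MeasurableSpace Ω} {μ : Measure Ω} [IsProbabilityMeasure μ]
  {ℱ : Filtration ℕ m0} {A : ℕ → Set Ω}

open Classical in
/-- the weights -/
noncomputable def wq (A : ℕ → Set Ω) (Q h : ℕ) (W : ℕ → ℕ) (n k : ℕ) (ω : Ω) : ℝ :=
  if n ≤ k ∧ k < n + W n ∧ Nat.Coprime (k + 1) Q then
    (A (k + 1 - h)).indicator (fun _ => (1 : ℝ)) ω else 0

lemma wq_meas (hA : ∀ n, MeasurableSet[ℱ n] (A n)) (Q : ℕ) {h : ℕ} (hh : 1 ≤ h) (W : ℕ → ℕ) (n k : ℕ) :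
    StronglyMeasurable[ℱ k] (wq A Q h W n k) := by
  by_cases hc : n ≤ k ∧ k < n + W n ∧ Nat.Coprime (k + 1) Q
  · have e : wq A Q h W n k = (A (k + 1 - h)).indicator (fun _ => (1 : ℝ)) := by
      funext ω
      unfold wq
      rw [if_pos hc]
    rw [e]
    exact (@stronglyMeasurable_const _ _ (ℱ k) _ _).indicator (ℱ.mono (by omega) _ (hA _))
  · have e : wq A Q h W n k = fun _ => 0 := by
      funext ω
      unfold wq
      rw [if_neg hc]
    rw [e]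
    exact @stronglyMeasurable_const _ _ (ℱ k) _ _

lemma wq01 (Q h : ℕ) (W : ℕ → ℕ) (n k : ℕ) (ω : Ω) : 0 ≤ wq A Q h W n k ω ∧ wq A Q h W n k ω ≤ 1 := by
  unfold wq
  split_ifs
  · exact ⟨indicator_nonneg (fun _ _ => zero_le_one) _, indicator_le_self' (fun _ _ => zero_le_one) _⟩
  · exact ⟨le_rfl, zero_le_one⟩

lemma SI_ne {Q h : ℕ} {W : ℕ → ℕ} {n : ℕ} {ω : Ω} (hs : SI A (wq A Q h W n) (n + W n) ω ≠ 0) :
    ∃ k, n < k ∧ k ≤ n + W n ∧ ω ∈ A (k - h) ∧ ω ∈ A k := by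
  unfold SI at hs
  obtain ⟨k, hk, hk'⟩ := Finset.exists_ne_zero_of_sum_ne_zero hs
  have h1 := left_ne_zero_of_mul hk'
  have h2 := right_ne_zero_of_mul hk'
  unfold wq at h1
  split_ifs at h1 with hc
  · exact ⟨k + 1, by omega, by omega, mem_of_indicator_ne_zero h1, mem_of_indicator_ne_zero h2⟩
  · exact absurd rfl h1

lemma SD_ge {Q h : ℕ} {W : ℕ → ℕ} {ρ : ℝ} {n : ℕ} {ω : Ω} (hd0 : ∀ k, 0 ≤ dens μ ℱ A k ω)
    (hρ : ∀ k, n ≤ k → k < n + W n → Nat.Coprime (k + 1) Q → ρ ≤ dens μ ℱ A k ω) :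
    ρ * (Nf A Q h n (W n) ω : ℝ) ≤ SD μ ℱ A (wq A Q h W n) (n + W n) ω := by
  classical
  set P := (Finset.range (n + W n)).filter (fun k => n ≤ k ∧ Nat.Coprime (k + 1) Q ∧ ω ∈ A (k + 1 - h)) with hP
  have hPc : Nf A Q h n (W n) ω = P.card := by
    unfold Nf
    refine Finset.card_nbij' (fun k => k - 1) (fun k => k + 1) ?_ ?_ ?_ ?_
    · intro k hk
      simp only [Finset.coe_filter, Finset.mem_Ioc, mem_ofPred_eq] at hk
      simp only [hP, Finset.coe_filter, Finset.mem_range, mem_ofPred_eq]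
      rw [show k - 1 + 1 = k by omega]
      exact ⟨by omega, by omega, hk.2.1, hk.2.2⟩
    · intro k hk
      simp only [hP, Finset.coe_filter, Finset.mem_range, mem_ofPred_eq] at hk
      simp only [Finset.coe_filter, Finset.mem_Ioc, mem_ofPred_eq]
      exact ⟨⟨by omega, by omega⟩, hk.2.2.1, hk.2.2.2⟩
    · intro k hk
      simp only [Finset.coe_filter, Finset.mem_Ioc, mem_ofPred_eq] at hk
      show k - 1 + 1 = k
      omega
    · intro k _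
      show k + 1 - 1 = k
      omega
  have hterm : ∀ k ∈ P, ρ ≤ wq A Q h W n k ω * dens μ ℱ A k ω := by
    intro k hk
    simp only [hP, Finset.mem_filter, Finset.mem_range] at hk
    have e : wq A Q h W n k ω = 1 := by
      unfold wq
      rw [if_pos ⟨hk.2.1, hk.1, hk.2.2.1⟩, indicator_of_mem hk.2.2.2]
    rw [e, one_mul]
    exact hρ k hk.2.1 hk.1 hk.2.2.1
  rw [hPc]
  unfold SD
  calc ρ * (P.card : ℝ) = ∑ k ∈ P, ρ := by
        rw [Finset.sum_const, nsmul_eq_mul, mul_comm]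
    _ ≤ ∑ k ∈ P, wq A Q h W n k ω * dens μ ℱ A k ω := Finset.sum_le_sum hterm
    _ ≤ ∑ k ∈ Finset.range (n + W n), wq A Q h W n k ω * dens μ ℱ A k ω := by
        apply Finset.sum_le_sum_of_subset_of_nonneg (Finset.filter_subset _ _)
        intro k _ _
        exact mul_nonneg (wq01 Q h W n k ω).1 (hd0 k)

lemma up_one (hA : ∀ n, MeasurableSet[ℱ n] (A n)) (Q : ℕ) (hQ : 0 < Q)
    (hcop : ∀ n, ¬ Nat.Coprime n Q → A n = ∅)
    (hd : ∀ᵐ ω ∂μ, Tendsto (fun n : ℕ => dens μ ℱ A n ω * Real.log n)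
      (atTop ⊓ 𝓟 {n : ℕ | Nat.Coprime (n + 1) Q}) (𝓝 ((Q : ℝ) / Nat.totient Q)))
    {h : ℕ} (hh : 1 ≤ h) (hν : 0 < nu Q h)
    {c₁ η : ℝ} (hc₁ : 0 < c₁) (hη : 0 < η) (hη1 : η < 1)
    (hcη : (1 + η) ^ 2 < (1 - η) ^ 4 * (al Q h * c₁)) :
    ∀ᵐ ω ∂μ, ∀ᶠ n : ℕ in atTop, ∃ k, n < k ∧ k ≤ n + Wc c₁ n ∧ ω ∈ A (k - h) ∧ ω ∈ A k := by
  set T : ℝ := -Real.log η with hT
  have hexpT : Real.exp (-T) = η := by rw [hT, neg_neg, Real.exp_log hη]
  have h1 : Summable (fun n : ℕ => 1 / (n : ℝ) ^ (1 + η)) :=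
    Real.summable_one_div_nat_rpow.2 (by linarith)
  have h2 := bc_real (μ := μ) (s := fun n : ℕ =>
      {ω | (1 + η) * Real.log n ≤ Ex μ ℱ A (-T) (wq A Q h (Wc c₁) n) (n + Wc c₁ n) ω}) h1 (by
    filter_upwards [eventually_ge_atTop 1] with n hn
    refine (Ex_tail (μ := μ) hA (-T) (wq A Q h (Wc c₁) n) (wq_meas hA Q hh (Wc c₁) n)
      (fun k ω => wq01 Q h (Wc c₁) n k ω) (n + Wc c₁ n) _).trans (le_of_eq ?_)
    have hn0 : (0 : ℝ) < n := by exact_mod_cast hn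
    rw [Real.rpow_def_of_pos hn0, one_div, ← Real.exp_neg]
    congr 1
    ring)
  have h01 : ∀ᵐ ω ∂μ, ∀ n, 0 ≤ dens μ ℱ A n ω ∧ dens μ ℱ A n ω ≤ 1 := ae_all_iff.2 fun n => dens01 hA n
  have hcnt := count (μ := μ) hA Q hQ hcop hd h hν (Wc c₁) (Wc_div hc₁) (Wc_le hc₁)
  have hc := cQ_ge Q hQ
  unfold al at hcη
  obtain ⟨c, hcdef⟩ : ∃ c : ℝ, c = (Q : ℝ) / Nat.totient Q := ⟨_, rfl⟩
  rw [← hcdef] at hc hcη
  have hc0 : 0 < c := by linarith
  have hκ0 : 0 < (nu Q h : ℝ) / Q := by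
    have e1 : (0 : ℝ) < Q := by exact_mod_cast hQ
    have e2 : (0 : ℝ) < nu Q h := by exact_mod_cast hν
    positivity
  obtain ⟨κ, hκ⟩ : ∃ κ : ℝ, κ = (nu Q h : ℝ) / Q := ⟨_, rfl⟩
  rw [← hκ] at hκ0 hcη
  filter_upwards [h2, h01, hd, hcnt] with ω g1 g2 g3 g4
  have hη' : 0 < 1 - η := by linarith
  have g3' : ∀ᶠ k : ℕ in atTop, Nat.Coprime (k + 1) Q → (1 - η) * c < dens μ ℱ A k ω * Real.log k := by
    have := g3.eventually (Ioi_mem_nhds (show (1 - η) * c < (Q : ℝ) / Nat.totient Q by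
      rw [← hcdef]; nlinarith))
    exact eventually_inf_principal.1 this
  obtain ⟨k₀, hk₀⟩ := eventually_atTop.1 g3'
  filter_upwards [g1, Wc_ge hc₁ hη, Wc_le hc₁, g4 η hη, log_win η hη, eventually_ge_atTop k₀,
    tendsto_log.eventually_gt_atTop 0, eventually_gt_atTop 0] with n a1 a2 a3 a4 a5 a6 a7 a8
  by_contra hcon
  have hSI : SI A (wq A Q h (Wc c₁) n) (n + Wc c₁ n) ω = 0 := by
    by_contra hne
    exact hcon (SI_ne hne)
  have b1 : Ex μ ℱ A (-T) (wq A Q h (Wc c₁) n) (n + Wc c₁ n) ω < (1 + η) * Real.log n := not_le.1 a1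
  rw [Ex_eq, hSI, mul_zero, zero_sub, hexpT] at b1
  obtain ⟨L, hL⟩ : ∃ L : ℝ, L = Real.log n := ⟨_, rfl⟩
  rw [← hL] at a2 a4 a7 b1
  have b2 := SD_ge (μ := μ) (ℱ := ℱ) (A := A) (Q := Q) (h := h) (W := Wc c₁) (n := n)
    (ρ := (1 - η) * c / ((1 + η) * L)) (ω := ω)
    (fun k => (g2 k).1) (fun k hk1 hk2 hk3 => by
      have e1 := hk₀ k (by omega) hk3
      have e2 := a5 k (by omega) (by omega)
      rw [← hL] at e2
      rw [div_le_iff₀ (by positivity)]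
      exact e1.le.trans (mul_le_mul_of_nonneg_left e2 (g2 k).1))
  rw [← hκ, ← hcdef] at a4
  have b3 : (1 - η) * (κ * c * ((Wc c₁ n : ℝ) / L)) ≤ (Nf A Q h n (Wc c₁ n) ω : ℝ) := by
    have := (abs_le.1 a4).1
    linarith
  have b4 : (1 - η) * (κ * c * (((1 - η) * (c₁ * L ^ 3)) / L)) ≤ (Nf A Q h n (Wc c₁ n) ω : ℝ) := by
    refine le_trans ?_ b3
    gcongr
  have b5 : (1 - η) * c / ((1 + η) * L) * ((1 - η) * (κ * c * (((1 - η) * (c₁ * L ^ 3)) / L))) ≤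
      SD μ ℱ A (wq A Q h (Wc c₁) n) (n + Wc c₁ n) ω :=
    (mul_le_mul_of_nonneg_left b4 (by positivity)).trans b2
  have b6 : (1 - η) * c / ((1 + η) * L) * ((1 - η) * (κ * c * (((1 - η) * (c₁ * L ^ 3)) / L))) =
      (1 - η) ^ 3 * (κ * c ^ 2 * c₁) * L / (1 + η) := by
    field_simp
  rw [b6] at b5
  have b7 : (1 - η) * ((1 - η) ^ 3 * (κ * c ^ 2 * c₁) * L / (1 + η)) ≤
      (1 - η) * SD μ ℱ A (wq A Q h (Wc c₁) n) (n + Wc c₁ n) ω :=
    mul_le_mul_of_nonneg_left b5 hη'.le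
  have b8 : (1 - η) * ((1 - η) ^ 3 * (κ * c ^ 2 * c₁) * L / (1 + η)) =
      ((1 - η) ^ 4 * (κ * c ^ 2 * c₁)) * L / (1 + η) := by ring
  rw [b8] at b7
  have b9 : ((1 - η) ^ 4 * (κ * c ^ 2 * c₁)) * L / (1 + η) < (1 + η) * L := by
    refine lt_of_le_of_lt b7 ?_
    linarith
  rw [div_lt_iff₀ (by linarith)] at b9
  have b10 : (1 + η) ^ 2 * L < ((1 - η) ^ 4 * (κ * c ^ 2 * c₁)) * L := mul_lt_mul_of_pos_right hcη a7
  nlinarith

lemma choose_eta {X : ℝ} (hX : 1 < X) : ∃ η : ℝ, 0 < η ∧ η < 1 ∧ (1 + η) ^ 2 < (1 - η) ^ 4 * X := by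
  have h1 : ContinuousAt (fun η : ℝ => (1 - η) ^ 4 * X - (1 + η) ^ 2) 0 := by fun_prop
  have h2 : (0 : ℝ) < (1 - 0) ^ 4 * X - (1 + 0) ^ 2 := by norm_num; linarith
  have h3 := h1.eventually (lt_mem_nhds h2)
  obtain ⟨r, hr, hr'⟩ := Metric.eventually_nhds_iff.1 h3
  refine ⟨min (r / 2) (1 / 2), by positivity, lt_of_le_of_lt (min_le_right _ _) (by norm_num), ?_⟩
  have h4 := @hr' (min (r / 2) (1 / 2)) (by
    rw [Real.dist_eq, sub_zero, abs_of_pos (by positivity)]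
    exact lt_of_le_of_lt (min_le_left _ _) (by linarith))
  linarith

/-- **the upper bound** -/
theorem up (hA : ∀ n, MeasurableSet[ℱ n] (A n)) (Q : ℕ) (hQ : 0 < Q)
    (hcop : ∀ n, ¬ Nat.Coprime n Q → A n = ∅)
    (hd : ∀ᵐ ω ∂μ, Tendsto (fun n : ℕ => dens μ ℱ A n ω * Real.log n)
      (atTop ⊓ 𝓟 {n : ℕ | Nat.Coprime (n + 1) Q}) (𝓝 ((Q : ℝ) / Nat.totient Q)))
    {h : ℕ} (hh : 1 ≤ h) (hν : 0 < nu Q h) :
    ∀ᵐ ω ∂μ, ∀ ε : ℝ, 0 < ε → ∀ᶠ x : ℕ in atTop, ∃ p : ℕ, x < p ∧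
      ((p + h : ℕ) : ℝ) ≤ x + (1 / al Q h + ε) * Real.log x ^ 3 ∧ ω ∈ A p ∧ ω ∈ A (p + h) := by
  have hα := al_pos Q h hQ hν
  have h1 : ∀ᵐ ω ∂μ, ∀ m : ℕ, ∀ᶠ n : ℕ in atTop,
      ∃ k, n < k ∧ k ≤ n + Wc (1 / al Q h + 1 / (m + 1 : ℝ)) n ∧ ω ∈ A (k - h) ∧ ω ∈ A k := by
    refine ae_all_iff.2 fun m => ?_
    have hm : (0 : ℝ) < 1 / (m + 1 : ℝ) := by positivity
    have hX : 1 < al Q h * (1 / al Q h + 1 / (m + 1 : ℝ)) := by
      rw [mul_add, mul_one_div_cancel hα.ne']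
      have : 0 < al Q h * (1 / (m + 1 : ℝ)) := by positivity
      linarith
    obtain ⟨η, h1, h2, h3⟩ := choose_eta hX
    exact up_one hA Q hQ hcop hd hh hν (by positivity) h1 h2 h3
  filter_upwards [h1] with ω hω ε hε
  obtain ⟨m, hm⟩ := exists_nat_one_div_lt hε
  have hc1 : 0 < 1 / al Q h + 1 / (m + 1 : ℝ) := by positivity
  have hcmp := tendsto_log.eventually (cmp3 (b := 1 / al Q h + 1 / (m + 1 : ℝ)) (c := 1 / al Q h + ε)
    (K := (h : ℝ)) (by positivity) (by linarith))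
  have hshift : Tendsto (fun x : ℕ => x + h) atTop atTop := tendsto_add_atTop_nat h
  filter_upwards [hshift.eventually (hω m), hcmp, eventually_ge_atTop (h + 1)] with x g1 g2 g3
  obtain ⟨k, k1, k2, k3, k4⟩ := g1
  refine ⟨k - h, by omega, ?_, k3, ?_⟩
  · rw [show k - h + h = k by omega]
    have e1 : (k : ℝ) ≤ ((x + h : ℕ) : ℝ) + (Wc (1 / al Q h + 1 / (m + 1 : ℝ)) (x + h) : ℝ) := by
      exact_mod_cast k2
    have e2 : (Wc (1 / al Q h + 1 / (m + 1 : ℝ)) (x + h) : ℝ) ≤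
        (1 / al Q h + 1 / (m + 1 : ℝ)) * Real.log ((x + h : ℕ) : ℝ) ^ 3 :=
      Nat.floor_le (mul_nonneg hc1.le (pow_nonneg (Real.log_natCast_nonneg _) 3))
    have hx0 : (0 : ℝ) < x := by
      have : 0 < x := by omega
      exact_mod_cast this
    have e3 : Real.log ((x + h : ℕ) : ℝ) ≤ Real.log x + Real.log 2 := by
      rw [← Real.log_mul hx0.ne' (by norm_num)]
      apply Real.log_le_log
      · have : 0 < x + h := by omega
        exact_mod_cast this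
      · have : x + h ≤ x * 2 := by omega
        exact_mod_cast this
    have e4 : (1 / al Q h + 1 / (m + 1 : ℝ)) * Real.log ((x + h : ℕ) : ℝ) ^ 3 ≤
        (1 / al Q h + 1 / (m + 1 : ℝ)) * (Real.log x + Real.log 2) ^ 3 :=
      mul_le_mul_of_nonneg_left (pow_le_pow_left₀ (Real.log_natCast_nonneg _) e3 3) hc1.le
    push_cast at e1
    push_cast at e2 e4
    linarith
  · rw [show k - h + h = k by omega]
    exact k4

end Pool.Agent.N654.TP
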