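import Mathlib
import Pool.Agent.N654.TP.Up
import Pool.Agent.N654.TP.Blk

set_option autoImplicit false
set_option linter.unusedSectionVars false

/-!
# Pairs with a given difference in sieved sequential models: the lower bound for the gaps
-/

open MeasureTheory Filter Set
open scoped ENNReal Topology

namespace Pool.Agent.N654.TP

open Pool.Agent.R528.RM Pool.Agent.N909.TF Pool.Agent.N740.HK

/-! ### Analysis -/

lemma pow_low {a ε L : ℝ} (ha : 0 < a) (hε : 0 < ε) (hε1 : ε < 1) (hL : 2 * a ≤ ε * L) {G : ℕ}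
    (hG : (G : ℝ) * a ≤ (1 - ε) * L ^ 2) : Real.exp (-((1 - ε / 2) * L)) ≤ (1 - a / L) ^ G := by
  have hL1 : 2 * a ≤ L := by
    have : 0 < L := by
      by_contra hcon
      push Not at hcon
      nlinarith
    nlinarith
  have hL0 : 0 < L := by linarith
  have hLa : 0 < L - a := by linarith
  have hu : a / L < 1 := by rw [div_lt_one hL0]; linarith
  have p0 : 0 < 1 - a / L := by linarith
  have p1 : 1 - (1 - a / L)⁻¹ ≤ Real.log (1 - a / L) := Real.one_sub_inv_le_log_of_pos p0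
  have p2 : 1 - (1 - a / L)⁻¹ = -(a / (L - a)) := by
    have q2 : (1 - a / L)⁻¹ = L / (L - a) := by
      rw [one_sub_div hL0.ne', inv_div]
    have q3 : L / (L - a) = 1 + a / (L - a) := by
      rw [← div_self hLa.ne', ← add_div]
      congr 1
      ring
    rw [q2, q3]
    ring
  rw [p2] at p1
  have p3 : (G : ℝ) * (a / (L - a)) ≤ (1 - ε / 2) * L := by
    rw [mul_div_assoc', div_le_iff₀ hLa]
    refine hG.trans ?_
    have q1 : (1 - ε / 2) * L * (L - a) - (1 - ε) * L ^ 2 = L * (ε / 2 * L - (1 - ε / 2) * a) := by ring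
    have q2 : 0 ≤ ε / 2 * L - (1 - ε / 2) * a := by nlinarith
    have q3 : 0 ≤ L * (ε / 2 * L - (1 - ε / 2) * a) := mul_nonneg hL0.le q2
    linarith
  have p5 : (1 - a / L) ^ G = Real.exp (G * Real.log (1 - a / L)) := by
    rw [← Real.log_pow, Real.exp_log (pow_pos p0 _)]
  rw [p5]
  apply Real.exp_le_exp.2
  have p7 : (G : ℝ) * (-(a / (L - a))) ≤ G * Real.log (1 - a / L) :=
    mul_le_mul_of_nonneg_left p1 (Nat.cast_nonneg G)
  linarith

lemma an1 {a ε C : ℝ} (ha : 0 < a) (hε : 0 < ε) (hε1 : ε < 1) (hC : 0 < C) : ∀ᶠ L : ℝ in atTop,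
    2 * a ≤ L ∧ ∀ G H M : ℕ, (G : ℝ) * a ≤ (1 - ε) * L ^ 2 → 0 < H → (H : ℝ) ≤ C * L ^ 3 →
      Real.exp L ≤ H * (M + 1) → L ≤ M * (1 - a / L) ^ G := by
  have h1 : ∀ᶠ L : ℝ in atTop, 2 * C * L ^ 4 ≤ Real.exp (ε / 2 * L) := by
    have e1 := (isLittleO_pow_exp_pos_mul_atTop (b := ε / 2) 4 (by positivity)).def
      (show (0 : ℝ) < 1 / (2 * C) by positivity)
    filter_upwards [e1, eventually_gt_atTop 0] with L g1 g2
    rw [Real.norm_of_nonneg (by positivity), Real.norm_of_nonneg (Real.exp_pos _).le] at g1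
    calc 2 * C * L ^ 4 ≤ 2 * C * (1 / (2 * C) * Real.exp (ε / 2 * L)) :=
          mul_le_mul_of_nonneg_left g1 (by positivity)
      _ = _ := by field_simp
  have h2 : ∀ᶠ L : ℝ in atTop, 2 * a ≤ ε * L := (tendsto_id.const_mul_atTop hε).eventually_ge_atTop _
  filter_upwards [h1, h2, eventually_ge_atTop 1] with L g1 g2 g3
  have hL0 : 0 < L := by linarith
  refine ⟨by nlinarith, fun G H M hG hH0 hH hM => ?_⟩
  have hpow := pow_low ha hε hε1 g2 hG
  have hc2 : 2 * (C * L ^ 3) ≤ Real.exp L := by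
    have e1 : Real.exp (ε / 2 * L) ≤ Real.exp L := Real.exp_le_exp.2 (by nlinarith)
    have e2 : 2 * (C * L ^ 3) ≤ 2 * C * L ^ 4 := by
      have : 2 * C * L ^ 4 = 2 * (C * L ^ 3) * L := by ring
      rw [this]
      exact le_mul_of_one_le_right (by positivity) g3
    linarith
  have h3 : 0 < C * L ^ 3 := by positivity
  have hMl : Real.exp L / (2 * (C * L ^ 3)) ≤ M := by
    have m1 : Real.exp L ≤ C * L ^ 3 * (M + 1) := hM.trans (mul_le_mul_of_nonneg_right hH (by positivity))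
    rw [div_le_iff₀ (by positivity)]
    have m2 : 1 ≤ (M : ℝ) := by
      by_contra hcon
      push Not at hcon
      have : (M : ℝ) + 1 < 2 := by linarith
      nlinarith
    nlinarith
  have hfin : L ≤ (Real.exp L / (2 * (C * L ^ 3))) * Real.exp (-((1 - ε / 2) * L)) := by
    have f1 : (Real.exp L / (2 * (C * L ^ 3))) * Real.exp (-((1 - ε / 2) * L)) =
      (Real.exp L * Real.exp (-((1 - ε / 2) * L))) / (2 * (C * L ^ 3)) := by ring
    rw [f1, ← Real.exp_add, le_div_iff₀ (by positivity)]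
    have f2 : L + -((1 - ε / 2) * L) = ε / 2 * L := by ring
    rw [f2]
    calc L * (2 * (C * L ^ 3)) = 2 * C * L ^ 4 := by ring
      _ ≤ _ := g1
  refine hfin.trans ?_
  exact mul_le_mul hMl hpow (Real.exp_pos _).le (Nat.cast_nonneg M)

lemma two_pow_log : Tendsto (fun n : ℕ => 2 ^ Nat.log 2 n) atTop atTop := by
  rw [tendsto_atTop]
  intro b
  filter_upwards [eventually_ge_atTop (2 * b), eventually_gt_atTop 0] with n h1 h2
  have h3 : n < 2 ^ (Nat.log 2 n + 1) := Nat.lt_pow_succ_log_self (by norm_num) n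
  rw [pow_succ] at h3
  omega

/-- the window lengths used for the lower bound -/
noncomputable def Wl (c : ℝ) (n : ℕ) : ℕ := Wc c (2 ^ Nat.log 2 n)

lemma Wl_div {c : ℝ} (hc : 0 < c) :
    Tendsto (fun n : ℕ => (Wl c n : ℝ) / Real.log n ^ 2) atTop atTop := by
  have h1 : Tendsto (fun n : ℕ => c / 16 * Real.log n) atTop atTop :=
    tendsto_log.const_mul_atTop (by positivity)
  refine tendsto_atTop_mono' atTop ?_ h1
  filter_upwards [two_pow_log.eventually (Wc_ge hc (show (0 : ℝ) < 1 / 2 by norm_num)),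
    tendsto_log.eventually_ge_atTop (2 * Real.log 2), tendsto_log.eventually_gt_atTop 0,
    eventually_gt_atTop 0] with n g1 g2 g3 g4
  have hn0 : (0 : ℝ) < n := by exact_mod_cast g4
  rw [le_div_iff₀ (by positivity)]
  have e1 : Real.log n ≤ Real.log ((2 ^ Nat.log 2 n : ℕ) : ℝ) + Real.log 2 := by
    have h3 : n < 2 ^ (Nat.log 2 n + 1) := Nat.lt_pow_succ_log_self (by norm_num) n
    have hp : (0 : ℝ) < ((2 ^ Nat.log 2 n : ℕ) : ℝ) := by positivity
    rw [← Real.log_mul hp.ne' (by norm_num)]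
    apply Real.log_le_log hn0
    rw [pow_succ] at h3
    exact_mod_cast h3.le
  have e2 : 1 / 2 * Real.log n ≤ Real.log ((2 ^ Nat.log 2 n : ℕ) : ℝ) := by linarith
  have e3 : (1 / 2 * Real.log n) ^ 3 ≤ Real.log ((2 ^ Nat.log 2 n : ℕ) : ℝ) ^ 3 :=
    pow_le_pow_left₀ (by positivity) e2 3
  unfold Wl
  calc c / 16 * Real.log n * Real.log n ^ 2 = (1 - 1 / 2) * (c * (1 / 2 * Real.log n) ^ 3) := by ring
    _ ≤ (1 - 1 / 2) * (c * Real.log ((2 ^ Nat.log 2 n : ℕ) : ℝ) ^ 3) := by gcongr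
    _ ≤ _ := g1

lemma Wl_le {c : ℝ} (hc : 0 < c) : ∀ᶠ n : ℕ in atTop, Wl c n ≤ n := by
  filter_upwards [two_pow_log.eventually (Wc_le hc), eventually_gt_atTop 0] with n h1 h2
  exact le_trans h1 (Nat.pow_log_le_self 2 h2.ne')

variable {Ω : Type} {m0 : MeasurableSpace Ω} {μ : Measure Ω} [IsProbabilityMeasure μ]
  {ℱ : Filtration ℕ m0} {A : ℕ → Set Ω}

/-- the conditional probability is too large -/
def VV (μ : Measure Ω) (ℱ : Filtration ℕ m0) (A : ℕ → Set Ω) (Q : ℕ) (b : ℝ) (n : ℕ) : Set Ω :=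
  {ω | Nat.Coprime (n + 1) Q ∧ b < dens μ ℱ A n ω * Real.log n}

lemma VV_meas (Q : ℕ) (b : ℝ) (n : ℕ) : MeasurableSet[ℱ n] (VV μ ℱ A Q b n) := by
  by_cases hc : Nat.Coprime (n + 1) Q
  · have h2 : MeasurableSet {x : ℝ | b < x * Real.log n} := by
      have : Measurable (fun x : ℝ => x * Real.log n) := by fun_prop
      exact this measurableSet_Ioi
    have h3 := (dens_meas (μ := μ) (ℱ := ℱ) (A := A) n).measurable h2
    have e : VV μ ℱ A Q b n = dens μ ℱ A n ⁻¹' {x : ℝ | b < x * Real.log n} := by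
      ext ω
      exact ⟨fun h1 => h1.2, fun h1 => ⟨hc, h1⟩⟩
    rw [e]
    exact h3
  · have e : VV μ ℱ A Q b n = ∅ := by
      ext ω
      exact ⟨fun h1 => absurd h1.1 hc, fun h1 => absurd h1 (notMem_empty _)⟩
    rw [e]
    exact @MeasurableSet.empty _ (ℱ n)

lemma low_one (hA : ∀ n, MeasurableSet[ℱ n] (A n)) (Q : ℕ) (hQ : 0 < Q)
    (hcop : ∀ n, ¬ Nat.Coprime n Q → A n = ∅)
    (hd : ∀ᵐ ω ∂μ, Tendsto (fun n : ℕ => dens μ ℱ A n ω * Real.log n)
      (atTop ⊓ 𝓟 {n : ℕ | Nat.Coprime (n + 1) Q}) (𝓝 ((Q : ℝ) / Nat.totient Q)))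
    {h : ℕ} (hh : 1 ≤ h) (hν : 0 < nu Q h)
    {c₂ δ ε : ℝ} (hc₂ : 0 < c₂) (hδ : 0 < δ) (hε : 0 < ε) (hε1 : ε < 1)
    (hcδ : (1 + δ) ^ 2 * (al Q h * c₂) ≤ 1 - ε) :
    ∀ᵐ ω ∂μ, ∀ᶠ i : ℕ in atTop, ∃ n, 2 ^ i ≤ n ∧ n < 2 ^ (i + 1) ∧ ω ∈ NP A h n (Wc c₂ (2 ^ i)) := by
  have hc := cQ_ge Q hQ
  unfold al at hcδ
  obtain ⟨c, hcdef⟩ : ∃ c : ℝ, c = (Q : ℝ) / Nat.totient Q := ⟨_, rfl⟩
  rw [← hcdef] at hc hcδ
  have hc0 : 0 < c := by linarith
  have hκ0 : 0 < (nu Q h : ℝ) / Q := by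
    have e1 : (0 : ℝ) < Q := by exact_mod_cast hQ
    have e2 : (0 : ℝ) < nu Q h := by exact_mod_cast hν
    positivity
  obtain ⟨κ, hκ⟩ : ∃ κ : ℝ, κ = (nu Q h : ℝ) / Q := ⟨_, rfl⟩
  rw [← hκ] at hκ0 hcδ
  obtain ⟨a, ha⟩ : ∃ a : ℝ, a = (1 + δ) * c := ⟨_, rfl⟩
  have ha0 : 0 < a := by rw [ha]; positivity
  have ha1 : 1 < a := by rw [ha]; nlinarith
  have hlog : Tendsto (fun i : ℕ => Real.log ((2 : ℝ) ^ i)) atTop atTop := by
    have : (fun i : ℕ => Real.log ((2 : ℝ) ^ i)) = fun i : ℕ => (i : ℝ) * Real.log 2 := by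
      funext i; rw [Real.log_pow]
    rw [this]
    exact tendsto_natCast_atTop_atTop.atTop_mul_const (Real.log_pos (by norm_num))
  have hlarge : ∀ᶠ L : ℝ in atTop, 2 ≤ c₂ * L ^ 3 :=
    ((tendsto_pow_atTop (by norm_num)).const_mul_atTop hc₂).eventually_ge_atTop 2
  obtain ⟨i₀, hi₀⟩ := eventually_atTop.1 (hlog.eventually ((an1 ha0 hε hε1 hc₂).and hlarge))
  set Li : ℕ → ℝ := fun i => Real.log ((2 : ℝ) ^ i) with hLi
  set H : ℕ → ℕ := fun i => Wc c₂ (2 ^ i) with hH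
  set r : ℕ → ℕ := fun i => ⌊(1 + δ) * (κ * c) * (c₂ * Li i ^ 2)⌋₊ with hr
  set M : ℕ → ℕ := fun i => 2 ^ i / H i with hM
  set T : ℕ → ℕ → ℕ := fun i m => 2 ^ i + H i * m with hT
  set u : ℕ → ℝ := fun i => a / Li i with hu
  have hcast : ∀ i : ℕ, Real.log ((2 ^ i : ℕ) : ℝ) = Li i := by
    intro i
    simp only [hLi]
    push_cast
    rfl
  have hLi0 : ∀ i, i₀ ≤ i → 2 * a ≤ Li i := fun i hi => (hi₀ i hi).1.1
  have hHle : ∀ i, i₀ ≤ i → (H i : ℝ) ≤ c₂ * Li i ^ 3 := by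
    intro i hi
    have h1 := hLi0 i hi
    simp only [hH]
    unfold Wc
    rw [hcast]
    exact Nat.floor_le (mul_nonneg hc₂.le (pow_nonneg (by linarith) 3))
  have hHpos : ∀ i, i₀ ≤ i → 0 < H i := by
    intro i hi
    have h1 := (hi₀ i hi).2
    simp only [hH]
    unfold Wc
    rw [hcast]
    apply Nat.floor_pos.2
    have h1' : 2 ≤ c₂ * Li i ^ 3 := h1
    linarith
  have hHM : ∀ i, H i * M i ≤ 2 ^ i := fun i => Nat.mul_div_le _ _
  have hTM : ∀ i m, m < M i → T i m + H i ≤ 2 ^ (i + 1) := by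
    intro i m hm
    have h3 : H i * (m + 1) ≤ 2 ^ i := le_trans (Nat.mul_le_mul_left _ hm) (hHM i)
    have e : T i m + H i = 2 ^ i + H i * (m + 1) := by simp only [hT]; ring
    rw [e, pow_succ]
    omega
  have hlogT : ∀ i n : ℕ, 2 ^ i ≤ n → Li i ≤ Real.log n := by
    intro i n hn
    have h1 : (2 : ℝ) ^ i ≤ n := by exact_mod_cast hn
    exact Real.log_le_log (by positivity) h1
  have hDm : ∀ i, i₀ ≤ i → ∀ k < 1, ∀ m < M i, MeasurableSet[ℱ (2 ^ i + H i * (m + 1))]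
      (EV A (VV μ ℱ A Q a) Q h (r i) (T i m) (H i)) := by
    intro i hi k _ m hm
    have e : 2 ^ i + H i * (m + 1) = T i m + H i := by simp only [hT]; ring
    rw [e]
    exact EV_meas hA (fun n => VV_meas Q a n) Q hh _ _ _
  have hpr : ∀ i, i₀ ≤ i → ∀ k < 1, ∀ m < M i, ∀ C, MeasurableSet[ℱ (2 ^ i + H i * m)] C →
      (1 - u i) ^ r i * μ.real C ≤ μ.real (C ∩ EV A (VV μ ℱ A Q a) Q h (r i) (T i m) (H i)) := by
    intro i hi k hk m hm C hC
    have hL := hLi0 i hi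
    have hL0 : 0 < Li i := by linarith
    have hu0 : 0 ≤ u i := div_nonneg ha0.le hL0.le
    have hu1 : u i ≤ 1 := by
      simp only [hu]
      rw [div_le_one hL0]
      linarith
    refine np_ge hA Q hcop hh (fun n => VV_meas Q a n) hu0 hu1 (H i) (r i) (T i m) ?_ C hC
    intro n hn1 hn2 hn3 ω hω
    have e1 : Li i ≤ Real.log n := hlogT i n (le_trans (Nat.le_add_right _ _) hn1)
    have e2 : dens μ ℱ A n ω * Real.log n ≤ a := by
      by_contra hcon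
      exact hω ⟨hn3, not_le.1 hcon⟩
    simp only [hu]
    rw [le_div_iff₀ hL0]
    rcases le_or_gt 0 (dens μ ℱ A n ω) with h0 | h0
    · exact (mul_le_mul_of_nonneg_left e1 h0).trans e2
    · have : dens μ ℱ A n ω * Li i < 0 := mul_neg_of_neg_of_pos h0 hL0
      linarith
  have hsum : Summable fun i : ℕ => ((1 : ℕ) : ℝ) * Real.exp (-(M i * (1 - u i) ^ r i)) := by
    refine Summable.of_norm_bounded_eventually_nat (g := fun i : ℕ => (1 / 2 : ℝ) ^ i)
      (summable_geometric_of_lt_one (by norm_num) (by norm_num)) ?_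
    filter_upwards [eventually_ge_atTop i₀] with i hi
    have hL := hLi0 i hi
    have hL0 : 0 < Li i := by linarith
    obtain ⟨⟨_, hana⟩, _⟩ := hi₀ i hi
    have hexp : Real.exp (Li i) = 2 ^ i := Real.exp_log (by positivity)
    have g1 : (r i : ℝ) * a ≤ (1 - ε) * Li i ^ 2 := by
      have e1 : (r i : ℝ) ≤ (1 + δ) * (κ * c) * (c₂ * Li i ^ 2) := Nat.floor_le (by positivity)
      have e2 := mul_le_mul_of_nonneg_right e1 ha0.le
      have e3 : (1 + δ) * (κ * c) * (c₂ * Li i ^ 2) * a = (1 + δ) ^ 2 * (κ * c ^ 2 * c₂) * Li i ^ 2 := by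
        rw [ha]; ring
      rw [e3] at e2
      exact e2.trans (mul_le_mul_of_nonneg_right hcδ (by positivity))
    have g3 : Real.exp (Li i) ≤ (H i : ℝ) * (M i + 1) := by
      rw [hexp]
      have h3 : 2 ^ i ≤ H i * (M i + 1) := (Nat.lt_mul_div_succ (2 ^ i) (hHpos i hi)).le
      exact_mod_cast h3
    have g4 : Li i ≤ M i * (1 - u i) ^ r i := hana (r i) (H i) (M i) g1 (hHpos i hi) (hHle i hi) g3
    rw [Nat.cast_one, one_mul, Real.norm_eq_abs, abs_of_nonneg (Real.exp_pos _).le]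
    have g6 : (1 / 2 : ℝ) ^ i = Real.exp (-(Li i)) := by
      rw [Real.exp_neg, hexp, one_div, inv_pow]
    rw [g6]
    exact Real.exp_le_exp.2 (by linarith)
  have main := ev_blocks (μ := μ) (ℱ := ℱ)
    (D := fun i _ m => EV A (VV μ ℱ A Q a) Q h (r i) (T i m) (H i))
    (H := H) (M := M) (N := fun _ => 1) (i₀ := i₀) hDm (fun i => (1 - u i) ^ r i) hpr hsum
  have hcnt := count (μ := μ) hA Q hQ hcop hd h hν (Wl c₂) (Wl_div hc₂) (Wl_le hc₂)
  filter_upwards [main, hd, hcnt] with ω hω h2 h3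
  have h2' : ∀ᶠ k : ℕ in atTop, Nat.Coprime (k + 1) Q → dens μ ℱ A k ω * Real.log k < a := by
    have := h2.eventually (Iio_mem_nhds (show (Q : ℝ) / Nat.totient Q < a by
      rw [← hcdef, ha]; nlinarith))
    exact eventually_inf_principal.1 this
  obtain ⟨n₀, hn₀⟩ := eventually_atTop.1 h2'
  obtain ⟨n₁, hn₁⟩ := eventually_atTop.1 (h3 δ hδ)
  filter_upwards [hω, eventually_ge_atTop n₀, eventually_ge_atTop n₁, eventually_ge_atTop i₀] with i g1 g2 g3 g4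
  obtain ⟨m, hm, h4⟩ := g1 0 one_pos
  have hTi : 2 ^ i ≤ T i m := Nat.le_add_right _ _
  have hTi2 : T i m < 2 ^ (i + 1) := by
    have e1 := hTM i m hm
    have e2 := hHpos i g4
    omega
  have hi2 : i < 2 ^ i := Nat.lt_two_pow_self
  refine ⟨T i m, hTi, hTi2, ?_⟩
  rcases h4 with (h4 | ⟨n, e1, _, e3⟩) | h4
  · exact h4
  · have := hn₀ n (by omega) e3.1
    exact absurd e3.2 (not_lt.2 this.le)
  · exfalso
    have h5 : r i < Nf A Q h (T i m) (H i) ω := h4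
    have h6 := hn₁ (T i m) (by omega)
    have h7 : Wl c₂ (T i m) = H i := by
      unfold Wl
      rw [Nat.log_eq_of_pow_le_of_lt_pow hTi hTi2]
    rw [h7, ← hκ, ← hcdef] at h6
    have hL := hLi0 i g4
    have hL0 : 0 < Li i := by linarith
    have h8 : (Nf A Q h (T i m) (H i) ω : ℝ) ≤ (1 + δ) * (κ * c * ((H i : ℝ) / Real.log (T i m))) := by
      have := (abs_le.1 h6).2
      linarith
    have h9 : (H i : ℝ) / Real.log (T i m) ≤ c₂ * Li i ^ 2 := by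
      have e1 := hlogT i (T i m) hTi
      rw [div_le_iff₀ (by linarith)]
      calc (H i : ℝ) ≤ c₂ * Li i ^ 3 := hHle i g4
        _ = c₂ * Li i ^ 2 * Li i := by ring
        _ ≤ _ := mul_le_mul_of_nonneg_left e1 (by positivity)
    have h10 : (Nf A Q h (T i m) (H i) ω : ℝ) ≤ (1 + δ) * (κ * c) * (c₂ * Li i ^ 2) := by
      refine h8.trans ?_
      have e1 : κ * c * ((H i : ℝ) / Real.log (T i m)) ≤ κ * c * (c₂ * Li i ^ 2) :=
        mul_le_mul_of_nonneg_left h9 (by positivity)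
      have e2 := mul_le_mul_of_nonneg_left e1 (show (0 : ℝ) ≤ 1 + δ by linarith)
      linarith
    have h11 : Nf A Q h (T i m) (H i) ω ≤ r i := Nat.le_floor h10
    omega

lemma choose_delta {X : ℝ} (hX : X < 1) : ∃ δ ε : ℝ, 0 < δ ∧ 0 < ε ∧ ε < 1 ∧ (1 + δ) ^ 2 * X ≤ 1 - ε := by
  have h1 : ContinuousAt (fun η : ℝ => 1 - η - (1 + η) ^ 2 * X) 0 := by fun_prop
  have h2 : (0 : ℝ) < 1 - 0 - (1 + 0) ^ 2 * X := by norm_num; linarith
  have h3 := h1.eventually (lt_mem_nhds h2)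
  obtain ⟨r, hr, hr'⟩ := Metric.eventually_nhds_iff.1 h3
  refine ⟨min (r / 2) (1 / 2), min (r / 2) (1 / 2), by positivity, by positivity,
    lt_of_le_of_lt (min_le_right _ _) (by norm_num), ?_⟩
  have h4 := @hr' (min (r / 2) (1 / 2)) (by
    rw [Real.dist_eq, sub_zero, abs_of_pos (by positivity)]
    exact lt_of_le_of_lt (min_le_left _ _) (by linarith))
  linarith

/-- **the lower bound** -/
theorem low (hA : ∀ n, MeasurableSet[ℱ n] (A n)) (Q : ℕ) (hQ : 0 < Q)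
    (hcop : ∀ n, ¬ Nat.Coprime n Q → A n = ∅)
    (hd : ∀ᵐ ω ∂μ, Tendsto (fun n : ℕ => dens μ ℱ A n ω * Real.log n)
      (atTop ⊓ 𝓟 {n : ℕ | Nat.Coprime (n + 1) Q}) (𝓝 ((Q : ℝ) / Nat.totient Q)))
    {h : ℕ} (hh : 1 ≤ h) (hν : 0 < nu Q h) :
    ∀ᵐ ω ∂μ, ∀ ε : ℝ, 0 < ε → ∀ᶠ i : ℕ in atTop, ∃ x : ℕ, 2 ^ i ≤ x ∧ x < 2 ^ (i + 1) ∧
      ∀ p : ℕ, x < p → ((p + h : ℕ) : ℝ) ≤ x + (1 / al Q h - ε) * Real.log x ^ 3 →
        ω ∈ A p → ω ∉ A (p + h) := by
  have hα := al_pos Q h hQ hν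
  have h1 : ∀ᵐ ω ∂μ, ∀ m : ℕ, ∀ᶠ i : ℕ in atTop, ∃ n, 2 ^ i ≤ n ∧ n < 2 ^ (i + 1) ∧
      ω ∈ NP A h n (Wc (1 / al Q h * (1 - 1 / (m + 2 : ℝ))) (2 ^ i)) := by
    refine ae_all_iff.2 fun m => ?_
    have hm0 : (0 : ℝ) ≤ m := Nat.cast_nonneg m
    have hm : (0 : ℝ) < 1 / (m + 2 : ℝ) := by positivity
    have hm1 : 1 / (m + 2 : ℝ) < 1 := by
      rw [div_lt_one (by positivity)]
      linarith
    have hX : al Q h * (1 / al Q h * (1 - 1 / (m + 2 : ℝ))) < 1 := by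
      rw [← mul_assoc, mul_one_div_cancel hα.ne', one_mul]
      linarith
    obtain ⟨δ, ε, e1, e2, e3, e4⟩ := choose_delta hX
    exact low_one hA Q hQ hcop hd hh hν (mul_pos (by positivity) (by linarith)) e1 e2 e3 e4
  filter_upwards [h1] with ω hω ε hε
  obtain ⟨m, hm⟩ := exists_nat_one_div_lt (show 0 < ε * al Q h by positivity)
  have hm0 : (0 : ℝ) ≤ m := Nat.cast_nonneg m
  obtain ⟨c₂, hc₂⟩ : ∃ c₂ : ℝ, c₂ = 1 / al Q h * (1 - 1 / (m + 2 : ℝ)) := ⟨_, rfl⟩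
  have hm1 : 1 / (m + 2 : ℝ) < 1 := by
    rw [div_lt_one (by positivity)]
    linarith
  have hc₂0 : 0 < c₂ := by
    rw [hc₂]
    exact mul_pos (by positivity) (by linarith)
  have hbc : 1 / al Q h - ε < c₂ := by
    have e1 : 1 / (m + 2 : ℝ) ≤ 1 / (m + 1 : ℝ) := one_div_le_one_div_of_le (by positivity) (by linarith)
    have e2 : 1 / (m + 2 : ℝ) < ε * al Q h := lt_of_le_of_lt e1 hm
    have e3 : 1 / al Q h * (1 / (m + 2 : ℝ)) < 1 / al Q h * (ε * al Q h) :=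
      mul_lt_mul_of_pos_left e2 (by positivity)
    have e4 : 1 / al Q h * (ε * al Q h) = ε := by field_simp
    rw [hc₂]
    nlinarith
  have hlog : Tendsto (fun i : ℕ => Real.log ((2 ^ i : ℕ) : ℝ)) atTop atTop :=
    tendsto_log.comp (tendsto_pow_atTop_atTop_of_one_lt (by norm_num))
  filter_upwards [hω m, hlog.eventually (cmp3 (K := 1) hc₂0 hbc)] with i g1 g2
  obtain ⟨n, n1, n2, n3⟩ := g1
  rw [← hc₂] at n3
  refine ⟨n, n1, n2, fun p hp1 hp2 hp3 => ?_⟩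
  have hW : (1 / al Q h - ε) * Real.log n ^ 3 ≤ (Wc c₂ (2 ^ i) : ℝ) := by
    rcases le_or_gt 0 (1 / al Q h - ε) with h0 | h0
    · have e1 : Real.log n ≤ Real.log ((2 ^ i : ℕ) : ℝ) + Real.log 2 := by
        have hp : (0 : ℝ) < ((2 ^ i : ℕ) : ℝ) := by positivity
        rw [← Real.log_mul hp.ne' (by norm_num)]
        have hn0 : 0 < n := lt_of_lt_of_le (by positivity) n1
        apply Real.log_le_log (by exact_mod_cast hn0)
        rw [pow_succ] at n2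
        exact_mod_cast n2.le
      have e2 := mul_le_mul_of_nonneg_left (pow_le_pow_left₀ (Real.log_natCast_nonneg n) e1 3) h0
      have e3 : c₂ * Real.log ((2 ^ i : ℕ) : ℝ) ^ 3 - 1 < (Wc c₂ (2 ^ i) : ℝ) := Nat.sub_one_lt_floor _
      linarith
    · have e1 : 0 ≤ Real.log n ^ 3 := pow_nonneg (Real.log_natCast_nonneg n) 3
      have e2 : (1 / al Q h - ε) * Real.log n ^ 3 ≤ 0 := mul_nonpos_of_nonpos_of_nonneg h0.le e1
      exact e2.trans (Nat.cast_nonneg _)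
  have hk : p + h ≤ n + Wc c₂ (2 ^ i) := by
    have : ((p + h : ℕ) : ℝ) ≤ ((n + Wc c₂ (2 ^ i) : ℕ) : ℝ) := by
      push_cast
      push_cast at hp2
      linarith
    exact_mod_cast this
  have h5 := n3 (p + h) (by omega) hk
  rw [Nat.add_sub_cancel] at h5
  exact h5 hp3

end Pool.Agent.N654.TP
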